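import Pool.Agent.helper24.TG.S3

set_option linter.all false
set_option autoImplicit false

/-!
# QA1 (MP_ce98d8_co): label vectors with a half of few neighbours
-/

namespace Pool.Agent.helper24.TG

open Finset Classical
open Pool.Agent.helper11.Tight (nb eo mem_nb)

/-- the vectors with few neighbours of the labels on `I` -/
noncomputable def QA1_bad {V : Type} [Fintype V] [DecidableEq V] (T : SimpleGraph V) (k h : ℕ)
    (I : Finset (Fin k)) : Finset (Fin k → V) :=
  Finset.univ.filter (fun u =>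
    (Finset.univ.filter (fun x : V => ∃ i ∈ I, T.Adj (u i) x)).card < h)

theorem QA1_restrict {V : Type} [Fintype V] [DecidableEq V] (T : SimpleGraph V) (k h : ℕ)
    (I : Finset (Fin k)) :
    (QA1_bad T k h I).card ≤
      ((Finset.univ : Finset (Fin I.card → V)).filter (fun u =>
        (Finset.univ.filter (fun x : V => ∃ i, T.Adj (u i) x)).card < h)).card *
        (Fintype.card V) ^ (k - I.card) := by
  have e : Fin I.card ≃ {i // i ∈ I} := I.equivFin.symm
  have hc : Fintype.card ({i : Fin k // i ∉ I} → V) = (Fintype.card V) ^ (k - I.card) := by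
    rw [Fintype.card_fun]
    congr 1
    rw [Fintype.card_subtype_compl]
    simp
  rw [← hc, ← Finset.card_univ (α := ({i : Fin k // i ∉ I} → V)), ← Finset.card_product]
  refine Finset.card_le_card_of_injOn
    (fun u => (fun j => u (e j).1, fun j : {i : Fin k // i ∉ I} => u j.1)) ?_ ?_
  · intro u hu
    have hu' := (Finset.mem_filter.mp (Finset.mem_coe.mp hu)).2
    refine Finset.mem_coe.mpr (Finset.mem_product.mpr ⟨Finset.mem_filter.mpr
      ⟨Finset.mem_univ _, ?_⟩, Finset.mem_univ _⟩)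
    refine lt_of_le_of_lt (Finset.card_le_card ?_) hu'
    intro x hx
    obtain ⟨j, hj⟩ := (Finset.mem_filter.mp hx).2
    exact Finset.mem_filter.mpr ⟨Finset.mem_univ _, (e j).1, (e j).2, hj⟩
  · intro u _ u' _ huu
    have h1 := congrArg Prod.fst huu
    have h2 := congrArg Prod.snd huu
    funext i
    by_cases hi : i ∈ I
    · have := congrFun h1 (e.symm ⟨i, hi⟩)
      simpa using this
    · exact congrFun h2 ⟨i, hi⟩

theorem QA1_arith (k k' a h N b cnt : ℕ) (hh : 0 < h) (h2 : 2 * h ≤ N) (hk : k ≤ 2 * k')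
    (hk' : k' ≤ k) (ha : 4 * a ≤ k) (hb : b ≤ cnt * N ^ (k - k'))
    (hcnt : cnt * (2 * h) ^ a ≤ 2 ^ k' * N ^ a * (2 * h) ^ k') :
    b ^ 4 * N ^ k ≤ 16 ^ k * N ^ (4 * k) * (2 * h) ^ k := by
  have hak : a ≤ k' := by omega
  have hcnt2 : cnt ≤ 2 ^ k' * N ^ a * (2 * h) ^ (k' - a) := by
    have hpos : 0 < (2 * h) ^ a := pow_pos (by omega) _
    have : cnt * (2 * h) ^ a ≤ (2 ^ k' * N ^ a * (2 * h) ^ (k' - a)) * (2 * h) ^ a := by
      calc cnt * (2 * h) ^ a ≤ 2 ^ k' * N ^ a * (2 * h) ^ k' := hcnt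
        _ = (2 ^ k' * N ^ a * (2 * h) ^ (k' - a)) * (2 * h) ^ a := by
          rw [mul_assoc (2 ^ k' * N ^ a), ← pow_add, Nat.sub_add_cancel hak]
    exact Nat.le_of_mul_le_mul_right this hpos
  have hb2 : b ≤ 2 ^ k * (N ^ (a + (k - k')) * (2 * h) ^ (k' - a)) := by
    calc b ≤ cnt * N ^ (k - k') := hb
      _ ≤ (2 ^ k' * N ^ a * (2 * h) ^ (k' - a)) * N ^ (k - k') := Nat.mul_le_mul_right _ hcnt2
      _ = 2 ^ k' * (N ^ (a + (k - k')) * (2 * h) ^ (k' - a)) := by rw [pow_add]; ring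
      _ ≤ 2 ^ k * (N ^ (a + (k - k')) * (2 * h) ^ (k' - a)) :=
        Nat.mul_le_mul_right _ (Nat.pow_le_pow_right (by norm_num) hk')
  calc b ^ 4 * N ^ k
      ≤ (2 ^ k * (N ^ (a + (k - k')) * (2 * h) ^ (k' - a))) ^ 4 * N ^ k :=
        Nat.mul_le_mul_right _ (Nat.pow_le_pow_left hb2 4)
    _ = 16 ^ k * (N ^ (4 * (a + (k - k')) + k) * (2 * h) ^ (4 * (k' - a))) := by
        have h16 : (16 : ℕ) ^ k = (2 ^ k) ^ 4 := by
          rw [← pow_mul, mul_comm k 4, pow_mul]; norm_num
        rw [h16, pow_add N (4 * (a + (k - k'))) k, mul_pow, mul_pow, ← pow_mul N, ← pow_mul (2 * h),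
          mul_comm (a + (k - k')) 4, mul_comm (k' - a) 4]
        ring
    _ = 16 ^ k * (N ^ (4 * (a + (k - k')) + k) *
          ((2 * h) ^ (4 * (k' - a) - k) * (2 * h) ^ k)) := by
        rw [← pow_add]
        congr 3
        omega
    _ ≤ 16 ^ k * (N ^ (4 * (a + (k - k')) + k) *
          (N ^ (4 * (k' - a) - k) * (2 * h) ^ k)) := by
        refine Nat.mul_le_mul_left _ (Nat.mul_le_mul_left _ (Nat.mul_le_mul_right _
          (Nat.pow_le_pow_left h2 _)))
    _ = 16 ^ k * N ^ (4 * k) * (2 * h) ^ k := by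
        rw [← mul_assoc (N ^ (4 * (a + (k - k')) + k)), ← pow_add]
        have : 4 * (a + (k - k')) + k + (4 * (k' - a) - k) = 4 * k := by omega
        rw [this]
        ring

/-- **QA1**. -/
theorem QA1 (h3 : QC3_stmt) : QA1_stmt := by
  intro p V _ _ T MM hT k h h2 h8
  have hV : Fintype.card V = p.N := hT.card_V
  rcases Nat.eq_zero_or_pos h with h0 | hpos
  · subst h0
    have : BadU T k 0 = ∅ := by
      refine Finset.filter_eq_empty_iff.mpr ?_
      rintro u _ ⟨I, _, hI⟩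
      exact absurd hI (Nat.not_lt_zero _)
    rw [this]
    simp
  have hone : ∀ I : Finset (Fin k), k ≤ 2 * I.card →
      (QA1_bad T k h I).card ^ 4 * p.N ^ k ≤ 16 ^ k * p.N ^ (4 * k) * (2 * h) ^ k := by
    intro I hI
    have hIk : I.card ≤ k := by simpa using Finset.card_le_univ I
    refine QA1_arith k I.card (k / 4) h p.N _ _ hpos h2 hI hIk (by omega) ?_
      (h3 p V T MM hT I.card h (k / 4) h2 ?_)
    · rw [← hV]
      exact QA1_restrict T k h I
    · have h1 : k ≤ 4 * (k / 4 + 1) := by omega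
      have h4 : k * p.d ≤ 4 * (k / 4 + 1) * p.d := Nat.mul_le_mul_right _ h1
      have h5 : 4 * (k / 4 + 1) * p.d = 4 * ((k / 4 + 1) * p.d) := by ring
      omega
  set F : Finset (Finset (Fin k)) := Finset.univ.filter (fun I => k ≤ 2 * I.card) with hF
  have hFne : F.Nonempty := ⟨Finset.univ, Finset.mem_filter.mpr
    ⟨Finset.mem_univ _, by rw [Finset.card_univ, Fintype.card_fin]; omega⟩⟩
  obtain ⟨I0, hI0, hmax⟩ := Finset.exists_max_image F (fun I => (QA1_bad T k h I).card) hFne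
  have hsub : BadU T k h ⊆ F.biUnion (fun I => QA1_bad T k h I) := by
    intro u hu
    obtain ⟨I, hI1, hI2⟩ := (Finset.mem_filter.mp hu).2
    exact Finset.mem_biUnion.mpr ⟨I, Finset.mem_filter.mpr ⟨Finset.mem_univ _, hI1⟩,
      Finset.mem_filter.mpr ⟨Finset.mem_univ _, hI2⟩⟩
  have hFc : F.card ≤ 2 ^ k := by
    calc F.card ≤ (Finset.univ : Finset (Finset (Fin k))).card := Finset.card_filter_le _ _
      _ = 2 ^ k := by simp
  have hcard : (BadU T k h).card ≤ 2 ^ k * (QA1_bad T k h I0).card := by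
    calc (BadU T k h).card ≤ (F.biUnion (fun I => QA1_bad T k h I)).card :=
          Finset.card_le_card hsub
      _ ≤ F.card * (QA1_bad T k h I0).card :=
          Finset.card_biUnion_le_card_mul _ _ _ (fun I hI => hmax I hI)
      _ ≤ 2 ^ k * (QA1_bad T k h I0).card := Nat.mul_le_mul_right _ hFc
  calc (BadU T k h).card ^ 4 * p.N ^ k
      ≤ (2 ^ k * (QA1_bad T k h I0).card) ^ 4 * p.N ^ k :=
        Nat.mul_le_mul_right _ (Nat.pow_le_pow_left hcard 4)
    _ = 16 ^ k * ((QA1_bad T k h I0).card ^ 4 * p.N ^ k) := by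
        have h16 : (16 : ℕ) ^ k = (2 ^ k) ^ 4 := by
          rw [← pow_mul, mul_comm k 4, pow_mul]; norm_num
        rw [h16]; ring
    _ ≤ 16 ^ k * (16 ^ k * p.N ^ (4 * k) * (2 * h) ^ k) :=
        Nat.mul_le_mul_left _ (hone I0 (Finset.mem_filter.mp hI0).2)
    _ = 256 ^ k * p.N ^ (4 * k) * (2 * h) ^ k := by
        have h256 : (256 : ℕ) ^ k = 16 ^ k * 16 ^ k := by rw [← mul_pow]; norm_num
        rw [h256]; ring

end Pool.Agent.helper24.TG
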